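import Pool.Agent.MP_ca0a54_nt.H24.Spec

/-!
Row PC: outside a set of small measure the size of zeta in a window is controlled.
-/

open Complex MeasureTheory Filter Topology

namespace Pool.Agent.MP_ca0a54_nt.H33

open Pool.Agent.MP_ca0a54_nt.L0 Pool.Agent.MP_ca0a54_nt.H24

lemma markov {f : ℝ → ENNReal} (hf : Measurable f) {p q M lam : ℝ} (hl : 0 < lam)
    (h : ∫⁻ t in Set.Icc p q, f t ≤ ENNReal.ofReal M) :
    volume ({t | ENNReal.ofReal lam ≤ f t} ∩ Set.Icc p q) ≤ ENNReal.ofReal (M / lam) := by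
  rw [← Measure.restrict_apply' measurableSet_Icc, ENNReal.ofReal_div_of_pos hl]
  refine (meas_ge_le_lintegral_div hf.aemeasurable (by simpa using hl)
    ENNReal.ofReal_ne_top).trans ?_
  exact ENNReal.div_le_div_right h _

lemma lint_inv {c a A : ℝ} (hc : 0 ≤ c) (ha : 0 < a) (hA : 1 ≤ A) :
    ∫⁻ s in Set.Icc a (A * a), ENNReal.ofReal (c / s) = ENNReal.ofReal (c * Real.log A) := by
  have hle : a ≤ A * a := by nlinarith
  have hco : ContinuousOn (fun s : ℝ => c / s) (Set.Icc a (A * a)) :=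
    continuousOn_const.div continuousOn_id fun s hs => (ha.trans_le hs.1).ne'
  rw [← ofReal_integral_eq_lintegral_ofReal (hco.integrableOn_Icc)]
  · congr 1
    rw [integral_Icc_eq_integral_Ioc, ← intervalIntegral.integral_of_le hle]
    have : ∀ s : ℝ, c / s = c * s⁻¹ := fun s => div_eq_mul_inv c s
    simp only [this]
    rw [intervalIntegral.integral_const_mul, integral_inv_of_pos ha (ha.trans_le hle),
      mul_div_assoc, div_self ha.ne', mul_one]
  · refine (ae_restrict_iff' measurableSet_Icc).2 (Eventually.of_forall fun s hs => ?_)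
    exact div_nonneg hc (ha.le.trans hs.1)

lemma ds_cont (c : ℕ → ℂ) (S : Finset ℕ) : Continuous (ds c S) := by
  unfold ds np
  fun_prop

lemma ms_le (h8 : ∀ (α : ℝ) (N : ℕ), 0 < α → α ≤ 1 → ∑ n ∈ Finset.Icc 1 N,
      ArithmeticFunction.vonMangoldt n * Real.exp (-(1 + α) * Real.log n) ≤ 12 / α)
    {χ : ℕ → ℂ} {C s : ℝ} (hχ : ∀ n, ‖χ n‖ ≤ C) (N : ℕ) (hs : 0 < s) (hs1 : s ≤ 1) :
    ms (fun n => (ArithmeticFunction.vonMangoldt n : ℝ) * χ n) (Finset.Ioc 1 N) (-s) ≤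
      12 * C ^ 2 / s ^ 2 := by
  have h1 := h8 s N hs hs1
  have hterm : ∀ n : ℕ, ‖((ArithmeticFunction.vonMangoldt n : ℝ) : ℂ) * χ n‖ ^ 2 *
      Real.exp ((2 * (-s) - 1) * Real.log n) ≤
      C ^ 2 / s * (ArithmeticFunction.vonMangoldt n * Real.exp (-(1 + s) * Real.log n)) := by
    intro n
    have hv : 0 ≤ ArithmeticFunction.vonMangoldt n := ArithmeticFunction.vonMangoldt_nonneg
    have hvl : ArithmeticFunction.vonMangoldt n ≤ Real.log n :=
      ArithmeticFunction.vonMangoldt_le_log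
    have he : Real.exp ((2 * (-s) - 1) * Real.log n) =
        Real.exp (-(s * Real.log n)) * Real.exp (-(1 + s) * Real.log n) := by
      rw [← Real.exp_add]
      congr 1
      ring
    have h2 : s * Real.log n * Real.exp (-(s * Real.log n)) ≤ 1 := by
      rw [Real.exp_neg, ← div_eq_mul_inv, div_le_one (Real.exp_pos _)]
      linarith [Real.add_one_le_exp (s * Real.log n)]
    have h3 : ArithmeticFunction.vonMangoldt n * Real.exp (-(s * Real.log n)) ≤ 1 / s := by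
      rw [le_div_iff₀ hs]
      have := mul_le_mul_of_nonneg_right hvl (mul_pos hs (Real.exp_pos (-(s * Real.log n)))).le
      nlinarith
    have h4 : ‖χ n‖ ^ 2 ≤ C ^ 2 := pow_le_pow_left₀ (norm_nonneg _) (hχ n) 2
    rw [norm_mul, Complex.norm_real, Real.norm_of_nonneg hv, he]
    have h5 : 0 ≤ ArithmeticFunction.vonMangoldt n * Real.exp (-(1 + s) * Real.log n) :=
      mul_nonneg hv (Real.exp_pos _).le
    have h6 : ‖χ n‖ ^ 2 * (ArithmeticFunction.vonMangoldt n * Real.exp (-(s * Real.log n))) ≤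
        C ^ 2 * (1 / s) :=
      mul_le_mul h4 h3 (mul_nonneg hv (Real.exp_pos _).le) (sq_nonneg _)
    calc _ = ‖χ n‖ ^ 2 * (ArithmeticFunction.vonMangoldt n * Real.exp (-(s * Real.log n))) *
          (ArithmeticFunction.vonMangoldt n * Real.exp (-(1 + s) * Real.log n)) := by ring
      _ ≤ C ^ 2 * (1 / s) *
          (ArithmeticFunction.vonMangoldt n * Real.exp (-(1 + s) * Real.log n)) :=
        mul_le_mul_of_nonneg_right h6 h5
      _ = _ := by ring
  unfold ms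
  calc _ ≤ ∑ n ∈ Finset.Ioc 1 N, C ^ 2 / s *
        (ArithmeticFunction.vonMangoldt n * Real.exp (-(1 + s) * Real.log n)) :=
        Finset.sum_le_sum fun n _ => hterm n
    _ ≤ ∑ n ∈ Finset.Icc 1 N, C ^ 2 / s *
        (ArithmeticFunction.vonMangoldt n * Real.exp (-(1 + s) * Real.log n)) :=
        Finset.sum_le_sum_of_subset_of_nonneg Finset.Ioc_subset_Icc_self fun n _ _ =>
          mul_nonneg (by positivity)
            (mul_nonneg ArithmeticFunction.vonMangoldt_nonneg (Real.exp_pos _).le)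
    _ ≤ C ^ 2 / s * (12 / s) := by
        rw [← Finset.mul_sum]
        exact mul_le_mul_of_nonneg_left h1 (by positivity)
    _ = _ := by
        field_simp

/-- The mean of the Dirichlet polynomial on the line at depth `s`. -/
lemma mean_le (hm : Mvt1Stmt) (har : Ar1Stmt) {C : ℝ} (hC : 1 ≤ C) : ∀ᶠ T : ℝ in atTop,
    ∀ χ : ℕ → ℂ, (∀ n, ‖χ n‖ ≤ C) → ∀ s : ℝ, 0 < s → s ≤ 1 →
    ∫⁻ t in Set.Icc T (2 * T), ‖ds (fun n => (ArithmeticFunction.vonMangoldt n : ℝ) * χ n)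
      (Finset.Ioc 1 ⌊T ^ (3 / 4 : ℝ)⌋₊) (t - s * I)‖ₑ ≤ ENNReal.ofReal (8 * C * T / s) := by
  filter_upwards [hm (1 / 4) (by norm_num), eventually_ge_atTop (1 : ℝ),
    Real.tendsto_log_atTop.eventually_ge_atTop C] with T hT hT1 hL χ hχ s hs hs1
  have hT0 : 0 < T := by linarith
  have hN : ((⌊T ^ (3 / 4 : ℝ)⌋₊ : ℕ) : ℝ) ≤ T ^ (3 / 4 : ℝ) :=
    Nat.floor_le (Real.rpow_nonneg hT0.le _)
  have hNT : T ^ (3 / 4 : ℝ) ≤ T := by
    simpa using Real.rpow_le_rpow_of_exponent_le hT1 (show (3 / 4 : ℝ) ≤ 1 by norm_num)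
  have h1 := hT ⌊T ^ (3 / 4 : ℝ)⌋₊ (fun n => (ArithmeticFunction.vonMangoldt n : ℝ) * χ n)
    (Finset.Ioc 1 ⌊T ^ (3 / 4 : ℝ)⌋₊) (-(s * I)) T (2 * T)
    (by rw [show (1 - 1 / 4 : ℝ) = 3 / 4 by norm_num]; exact hN) Finset.Ioc_subset_Icc_self
    (fun n hn => by
      have hn' := Finset.mem_Ioc.1 hn
      have hn0 : (0 : ℝ) < n := by exact_mod_cast (by omega : 0 < n)
      have hnT : (n : ℝ) ≤ T := ((Nat.cast_le.2 hn'.2).trans hN).trans hNT
      have h2 : ArithmeticFunction.vonMangoldt n ≤ Real.log T :=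
        ArithmeticFunction.vonMangoldt_le_log.trans (Real.log_le_log hn0 hnT)
      rw [norm_mul, Complex.norm_real, Real.norm_of_nonneg ArithmeticFunction.vonMangoldt_nonneg]
      have h3 : ArithmeticFunction.vonMangoldt n * ‖χ n‖ ≤ Real.log T * Real.log T :=
        mul_le_mul h2 ((hχ n).trans hL) (norm_nonneg _) (by linarith)
      have h4 : 1 ≤ Real.log T := hC.trans hL
      nlinarith [mul_nonneg (mul_self_nonneg (Real.log T)) (sub_nonneg.2 h4)])
    (by linarith)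
  simp only [← sub_eq_add_neg] at h1
  refine h1.trans (ENNReal.ofReal_le_ofReal ?_)
  have him : (-((s : ℂ) * I)).im = -s := by simp
  rw [him, max_eq_right (by linarith : -s ≤ 0), mul_zero, Real.exp_zero, mul_one]
  have h5 := ms_le har.2.2.2.2.2.2.2 hχ ⌊T ^ (3 / 4 : ℝ)⌋₊ hs hs1
  have h6 : T ^ (-(1 / 4 / 2) : ℝ) ≤ 1 :=
    Real.rpow_le_one_of_one_le_of_nonpos hT1 (by norm_num)
  have h7 : 1 ≤ C ^ 2 / s ^ 2 := by
    rw [le_div_iff₀ (by positivity)]
    nlinarith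
  have h8 : √(ms (fun n => (ArithmeticFunction.vonMangoldt n : ℝ) * χ n)
      (Finset.Ioc 1 ⌊T ^ (3 / 4 : ℝ)⌋₊) (-s) + T ^ (-(1 / 4 / 2) : ℝ)) ≤ 4 * C / s := by
    refine Real.sqrt_le_iff.2 ⟨by positivity, ?_⟩
    have e1 : (4 * C / s) ^ 2 = 16 * (C ^ 2 / s ^ 2) := by ring
    have e2 : 12 * C ^ 2 / s ^ 2 = 12 * (C ^ 2 / s ^ 2) := by ring
    linarith
  calc _ ≤ 2 * T * (4 * C / s) := mul_le_mul_of_nonneg_left h8 (by linarith)
    _ = _ := by ring

/-- The exceptional set. -/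
lemma exc (hm : Mvt1Stmt) (har : Ar1Stmt) {C ε : ℝ} (hC : 1 ≤ C) (hε : 0 < ε) :
    ∀ᶠ T : ℝ in atTop, ∀ χ : ℕ → ℂ, (∀ n, ‖χ n‖ ≤ C) → ∀ a A : ℝ, 0 < a → 2 ≤ A →
    640 * C / ε ≤ A → A * a ≤ 1 → ∃ S : Set ℝ, volume S ≤ ENNReal.ofReal (ε * T) ∧
    ∀ t : ℝ, T ≤ t → t ≤ 2 * T → t ∉ S →
      ∫⁻ s in Set.Icc a (A * a), ‖ds (fun n => (ArithmeticFunction.vonMangoldt n : ℝ) * χ n)
        (Finset.Ioc 1 ⌊T ^ (3 / 4 : ℝ)⌋₊) (t - s * I)‖ₑ ≤
        ENNReal.ofReal (16 * C * Real.log A / ε) ∧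
      a * ‖ds (fun n => (ArithmeticFunction.vonMangoldt n : ℝ) * χ n)
        (Finset.Ioc 1 ⌊T ^ (3 / 4 : ℝ)⌋₊) (t - (A * a : ℝ) * I)‖ ≤ 1 / 40 := by
  filter_upwards [mean_le hm har hC, eventually_gt_atTop (0 : ℝ)] with T hT hT0 χ hχ a A ha hA hA'
    hAa
  set D := ds (fun n => (ArithmeticFunction.vonMangoldt n : ℝ) * χ n)
    (Finset.Ioc 1 ⌊T ^ (3 / 4 : ℝ)⌋₊) with hD
  have hDc : Continuous D := ds_cont _ _
  have hlog : 0 < Real.log A := Real.log_pos (by linarith)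
  have hmeas : Measurable (Function.uncurry fun (t s : ℝ) => ‖D (t - s * I)‖ₑ) := by
    have : Continuous fun z : ℝ × ℝ => D (z.1 - z.2 * I) := hDc.comp (by fun_prop)
    exact this.measurable.enorm
  have h1 : ∫⁻ t in Set.Icc T (2 * T), ∫⁻ s in Set.Icc a (A * a), ‖D (t - s * I)‖ₑ ≤
      ENNReal.ofReal (8 * C * T * Real.log A) := by
    rw [lintegral_lintegral_swap hmeas.aemeasurable,
      ← lint_inv (by positivity : 0 ≤ 8 * C * T) ha (by linarith)]
    refine setLIntegral_mono' measurableSet_Icc fun s hs => ?_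
    exact hT χ hχ s (ha.trans_le hs.1) (hs.2.trans hAa)
  have h2 := markov (f := fun t : ℝ => ∫⁻ s in Set.Icc a (A * a), ‖D (t - s * I)‖ₑ)
    hmeas.lintegral_prod_right' (lam := 16 * C * Real.log A / ε) (by positivity) h1
  have h3 := markov (f := fun t : ℝ => ‖D (t - (A * a : ℝ) * I)‖ₑ)
    (Continuous.measurable (hDc.comp (by fun_prop))).enorm (lam := 1 / (40 * a)) (by positivity)
    (hT χ hχ (A * a) (by positivity) hAa)
  refine ⟨_ ∪ _, (measure_union_le _ _).trans ((add_le_add h2 h3).trans ?_), fun t ht ht' hS => ?_⟩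
  · rw [← ENNReal.ofReal_add (by positivity) (by positivity)]
    refine ENNReal.ofReal_le_ofReal ?_
    have e1 : 8 * C * T * Real.log A / (16 * C * Real.log A / ε) = ε * T / 2 := by
      field_simp
      ring
    have e2 : 8 * C * T / (A * a) / (1 / (40 * a)) = 320 * C / A * T := by
      field_simp
      ring
    have e3 : 320 * C / A ≤ ε / 2 := by
      rw [div_le_iff₀ hε] at hA'
      rw [div_le_iff₀ (by linarith)]
      linarith
    rw [e1, e2]
    nlinarith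
  · rw [Set.mem_union, not_or] at hS
    constructor
    · by_contra hcon
      exact hS.1 ⟨(not_le.1 hcon).le, ht, ht'⟩
    · by_contra hcon
      refine hS.2 ⟨?_, ht, ht'⟩
      change ENNReal.ofReal _ ≤ ‖_‖ₑ
      rw [← ofReal_norm]
      refine ENNReal.ofReal_le_ofReal ?_
      rw [div_le_iff₀ (by positivity)]
      linarith [not_le.1 hcon]

theorem pcs : Mvt1Stmt → LFStmt → Ar1Stmt → SzStmt → SfStmt → PCStmt := by
  intro hm hlf har hsz hsf η ε hη hε
  obtain ⟨C₀, hC₀, hLF⟩ := hlf η hη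
  obtain ⟨C₁, hC₁, hSZ⟩ := hsz C₀ hC₀
  obtain ⟨C₂, hC₂, hSF⟩ := hsf C₀ hC₀
  have hq : 0 < C₂ / ε := by positivity
  refine ⟨640 * (C₂ / ε) + 40 * (C₁ + C₂) + 3, by linarith, fun K A ab hK hA hab hab' => ?_⟩
  have hA3 : 3 ≤ A := by linarith
  have hA0 : 0 < A := by linarith
  have hlog : 1 ≤ Real.log A := by
    rw [Real.le_log_iff_exp_le hA0]
    linarith [Real.exp_one_lt_d9]
  filter_upwards [hLF, hSZ K A hK (by linarith), hSF, exc hm har hC₂ hε,
    Real.tendsto_log_atTop.eventually_ge_atTop (160 * A), eventually_gt_atTop (0 : ℝ)] with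
    T hLF hSZ hSF hE hL hT0 δ U hδ hU
  obtain ⟨χ, hχ, hSF⟩ := hSF
  have hL0 : 0 < Real.log T := by linarith
  set a := ab / Real.log T with ha
  have ha1 : 1 / Real.log T ≤ a := div_le_div_of_nonneg_right hab hL0.le
  have ha4 : a ≤ 4 / Real.log T := div_le_div_of_nonneg_right hab' hL0.le
  have ha0 : 0 < a := lt_of_lt_of_le (by positivity) ha1
  have hAa : A * a ≤ 1 / 40 := by
    refine (mul_le_mul_of_nonneg_left ha4 hA0.le).trans ?_
    rw [← mul_div_assoc, div_le_iff₀ hL0]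
    linarith
  obtain ⟨S, hS, hgood⟩ := hE χ hχ a A ha0 (by linarith)
    (by rw [mul_div_assoc]; linarith) (by linarith)
  refine ⟨S, hS, fun t ht ht' htS => ?_⟩
  have hηT : 0 < η * T := mul_pos hη hT0
  obtain ⟨g1, g2⟩ := hgood t (by linarith) (by linarith) htS
  obtain ⟨h, hh⟩ := hLF δ U (ha1.trans hδ.le) hU t ht ht'
  have hle : a ≤ A * a := by nlinarith
  have k1 : ∫⁻ s in Set.Icc a (A * a), ‖ld (t - s * I)‖ₑ ≤
      ENNReal.ofReal (16 * C₂ * Real.log A / ε + C₂ * Real.log A) := by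
    rw [ENNReal.ofReal_add (by positivity) (by positivity),
      ← lint_inv (by linarith : 0 ≤ C₂) ha0 (by linarith)]
    refine le_trans ?_ (add_le_add g1 le_rfl)
    rw [← lintegral_add_right _ (by fun_prop)]
    refine setLIntegral_mono' measurableSet_Icc fun s hs => ?_
    have hs0 : 0 < s := ha0.trans_le hs.1
    rw [← ofReal_norm, ← ofReal_norm,
      ← ENNReal.ofReal_add (norm_nonneg _) (by positivity)]
    exact ENNReal.ofReal_le_ofReal (hSF a δ t s U h ha1 ha4 hδ hU hh hs.1 (hs.2.trans hAa))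
  have k2 : a * ‖ld (t - (A * a : ℝ) * I)‖ ≤ 1 / 40 + C₂ / A := by
    have h1 := mul_le_mul_of_nonneg_left (hSF a δ t (A * a) U h ha1 ha4 hδ hU hh hle hAa) ha0.le
    have e : a * (C₂ / (A * a)) = C₂ / A := by field_simp
    rw [mul_add, e] at h1
    linarith
  obtain ⟨r1, r2, r3⟩ := hSZ a δ t _ _ U h ha1 ha4 hδ hU hh (by positivity) k1 k2
  have hsm : C₂ / A + C₁ / A ≤ 1 / 40 := by
    rw [← add_div, div_le_iff₀ hA0]
    linarith
  have hC1A : 0 ≤ C₁ / A := by positivity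
  have hC2A : 0 ≤ C₂ / A := by positivity
  refine ⟨r1, fun w hw hw' => (r2 w hw hw').trans ?_, fun x hx hx' => (r3 x hx hx').trans ?_⟩
  · refine mul_le_mul_of_nonneg_right (mul_le_mul_of_nonneg_right ?_ (norm_nonneg _))
      (Real.exp_pos _).le
    rw [Real.rpow_def_of_pos hA0]
    refine Real.exp_le_exp.2 ?_
    have hK2 : K ≤ K ^ 2 := by nlinarith
    have hP : Real.log A ≤ K ^ 2 * Real.log A := by nlinarith
    have hP' : K ^ 2 ≤ K ^ 2 * Real.log A := by nlinarith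
    have e1 : 16 * C₂ * Real.log A / ε = 16 * (C₂ / ε) * Real.log A := by ring
    have b1 : (C₂ / ε) * Real.log A ≤ (C₂ / ε) * (K ^ 2 * Real.log A) :=
      mul_le_mul_of_nonneg_left hP hq.le
    have b2 : C₂ * Real.log A ≤ C₂ * (K ^ 2 * Real.log A) :=
      mul_le_mul_of_nonneg_left hP (by linarith)
    have b3 : K * (1 / 40 + C₂ / A) ≤ K * 1 := mul_le_mul_of_nonneg_left (by linarith) (by linarith)
    have b4 : C₁ * K ^ 2 ≤ C₁ * (K ^ 2 * Real.log A) :=
      mul_le_mul_of_nonneg_left hP' (by linarith)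
    have b5 : 0 ≤ (C₂ / ε) * (K ^ 2 * Real.log A) := by positivity
    have b6 : 0 ≤ C₂ * (K ^ 2 * Real.log A) := by positivity
    have b7 : 0 ≤ C₁ * (K ^ 2 * Real.log A) := by positivity
    rw [e1]
    nlinarith
  · have h1 : Real.exp (1 / 40 + C₂ / A + C₁ / A) ≤ Real.exp (1 / 20) :=
      Real.exp_le_exp.2 (by linarith)
    have h2 : Real.exp (1 / 20) ≤ 1 / (1 - 1 / 20) :=
      Real.exp_bound_div_one_sub_of_interval (by norm_num) (by norm_num)
    have h3 : Real.exp (1 / 40 + C₂ / A + C₁ / A) - 1 ≤ 1 / 10 := by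
      norm_num at h2
      linarith
    have := mul_le_mul_of_nonneg_right h3 (norm_nonneg (zf (t - (A * a : ℝ) * I)))
    linarith

end Pool.Agent.MP_ca0a54_nt.H33
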